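import Pool.Agent.H654R5.PT.Stm

/-! Task CLS: classes and levels. -/

namespace Pool.Agent.H654R5.PT.CLS

open Pool.Agent.NPC Pool.Agent.H654R5.PT

theorem gI_spec (m : ℕ) : ∃ i, gI m = 2 ^ (i + 1) ∧ Nat.size m ≤ 2 ^ (i + 1) ∧
    ∀ j < i, ¬ Nat.size m ≤ 2 ^ (j + 1) := by
  classical
  have hex : ∃ i, Nat.size m ≤ 2 ^ (i + 1) :=
    ⟨Nat.size m, (Nat.lt_two_pow_self (n := Nat.size m)).le.trans
      (Nat.pow_le_pow_right (by norm_num) (Nat.le_succ _))⟩
  obtain ⟨i, hi, hmin⟩ : ∃ i, Nat.size m ≤ 2 ^ (i + 1) ∧ ∀ j < i, ¬ Nat.size m ≤ 2 ^ (j + 1) :=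
    ⟨Nat.find hex, Nat.find_spec hex, fun j hj => Nat.find_min hex hj⟩
  refine ⟨i, ?_, hi, hmin⟩
  have hile : i ≤ Nat.size m := by
    by_contra hcon
    push Not at hcon
    exact hmin _ hcon ((Nat.lt_two_pow_self (n := Nat.size m)).le.trans
      (Nat.pow_le_pow_right (by norm_num) (Nat.le_succ _)))
  have hfind : ((List.range (Nat.size m + 1)).map (fun i => 2 ^ (i + 1))).find?
      (fun g => decide (Nat.size m ≤ g)) = some (2 ^ (i + 1)) := by
    rw [List.find?_map, Option.map_eq_some_iff]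
    refine ⟨i, ?_, rfl⟩
    rw [List.find?_range_eq_some]
    refine ⟨by simpa using hi, List.mem_range.mpr (by omega), fun j hj => ?_⟩
    simpa using hmin j hj
  unfold gI
  rw [hfind]
  rfl

theorem gN_iff (N i : ℕ) (hN : 0 < N) : gN N = 2 ^ (i + 1) ↔ N % 2 ^ (i + 1) = 2 ^ i := by
  have h1 : gN N = 2 ^ (i + 1) ↔ padicValNat 2 N = i := by
    unfold gN
    rw [Nat.pow_right_inj (by norm_num)]
    omega
  rw [h1]
  constructor
  · intro h
    have hd : 2 ^ i ∣ N := by
      rw [← h]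
      exact pow_padicValNat_dvd
    have hnd : ¬ 2 ^ (i + 1) ∣ N := by
      rw [← h]
      exact pow_succ_padicValNat_not_dvd hN.ne'
    obtain ⟨q, rfl⟩ := hd
    rw [pow_succ, Nat.mul_mod_mul_left]
    have hq : ¬ 2 ∣ q := by
      intro h2
      apply hnd
      rw [pow_succ]
      exact Nat.mul_dvd_mul_left _ h2
    have : q % 2 = 1 := by omega
    rw [this, mul_one]
  · intro h
    have hp : 0 < 2 ^ i := Nat.two_pow_pos i
    have hN' : N = 2 ^ i * (2 * (N / 2 ^ (i + 1)) + 1) := by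
      have := Nat.div_add_mod N (2 ^ (i + 1))
      rw [h, pow_succ] at this
      calc N = 2 ^ i * 2 * (N / (2 ^ i * 2)) + 2 ^ i := this.symm
        _ = _ := by rw [pow_succ]; ring
    have hpr : Fact (Nat.Prime 2) := ⟨Nat.prime_two⟩
    rw [hN', padicValNat.mul hp.ne' (by omega), padicValNat.prime_pow,
      padicValNat.eq_zero_of_not_dvd (by omega), add_zero]

theorem mem_lvls (m N : ℕ) : N ∈ lvls m ↔
    (N % gI m = gI m / 2 ∧ aa (gI m) < N ∧ N < m + aa (gI m) + gI m + 5) := by
  unfold lvls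
  rw [List.mem_reverse, List.mem_filter, List.mem_range, Bool.and_eq_true, decide_eq_true_iff,
    decide_eq_true_iff]
  tauto

theorem cancel (k l : ℕ) (a b : List Bool)
    (h : List.replicate k false ++ true :: a = List.replicate l false ++ true :: b) : a = b := by
  induction k generalizing l with
  | zero =>
    cases l with
    | zero => simpa using h
    | succ l => simp [List.replicate_succ] at h
  | succ k ih =>
    cases l with
    | zero => simp [List.replicate_succ] at h
    | succ l =>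
      apply ih l
      simpa [List.replicate_succ] using h

theorem CLS_proof : S_CLS := by
  refine ⟨?_, ?_, ?_, ?_, ?_, ?_⟩
  · intro m
    obtain ⟨i, hi, h1, h2⟩ := gI_spec m
    refine ⟨?_, ⟨i, hi⟩, ?_⟩
    · rw [hi]
      exact (Nat.lt_size_self m).trans_le (Nat.pow_le_pow_right (by norm_num) h1)
    · rw [hi]
      rcases Nat.eq_zero_or_pos i with rfl | hi0
      · calc 2 ^ 2 ^ (0 + 1) = 2 ^ 2 := by norm_num
          _ ≤ (m + 2) ^ 2 := Nat.pow_le_pow_left (by omega) 2
      · obtain ⟨j, rfl⟩ : ∃ j, i = j + 1 := ⟨i - 1, by omega⟩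
        have h3 := h2 j (Nat.lt_succ_self j)
        push Not at h3
        have h4 : 2 ^ 2 ^ (j + 1) ≤ m := Nat.lt_size.mp h3
        calc 2 ^ 2 ^ (j + 1 + 1) = (2 ^ 2 ^ (j + 1)) ^ 2 := by
              rw [← pow_mul, ← pow_succ]
          _ ≤ m ^ 2 := Nat.pow_le_pow_left h4 2
          _ ≤ (m + 2) ^ 2 := Nat.pow_le_pow_left (by omega) 2
  · intro m N
    obtain ⟨i, hi, -, -⟩ := gI_spec m
    rw [mem_lvls, hi]
    have h2 : 2 ^ (i + 1) / 2 = 2 ^ i := by
      rw [pow_succ]
      exact Nat.mul_div_cancel _ (by norm_num)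
    rw [h2]
    constructor
    · rintro ⟨h3, h4, h5⟩
      exact ⟨(gN_iff N i (by omega)).2 h3, h4, h5⟩
    · rintro ⟨h3, h4, h5⟩
      exact ⟨(gN_iff N i (by omega)).1 h3, h4, h5⟩
  · intro m
    obtain ⟨i, hi, -, -⟩ := gI_spec m
    obtain ⟨g, hg⟩ : ∃ g, g = gI m := ⟨_, rfl⟩
    have hg2 : g = 2 * 2 ^ i := by rw [hg, hi, pow_succ]; ring
    have hgp : 0 < 2 ^ i := Nat.two_pow_pos i
    simp only [mem_lvls, ← hg]
    obtain ⟨B, hB⟩ : ∃ B, B = m + aa g + 5 := ⟨_, rfl⟩
    -- the representative in `[B, B + g)`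
    have hgpos : 0 < g := by omega
    have hhalf : g / 2 < g := Nat.div_lt_self hgpos (by norm_num)
    obtain ⟨N, hN1, hN2, hN3⟩ : ∃ N, B ≤ N ∧ N < B + g ∧ N % g = g / 2 := by
      have hBg := Nat.div_add_mod B g
      have hmod := Nat.mod_lt B hgpos
      rcases Nat.lt_or_ge (g / 2) (B % g) with h | h
      · refine ⟨g * (B / g + 1) + g / 2, ?_, ?_, ?_⟩
        · rw [mul_add, mul_one]; omega
        · rw [mul_add, mul_one]; omega
        · rw [Nat.mul_add_mod, Nat.mod_eq_of_lt hhalf]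
      · refine ⟨g * (B / g) + g / 2, by omega, by omega, ?_⟩
        rw [Nat.mul_add_mod, Nat.mod_eq_of_lt hhalf]
    refine ⟨N, ⟨hN3, by omega, by omega⟩, by omega, ?_⟩
    rintro N' ⟨h1, h2, h3⟩
    by_contra hcon
    push Not at hcon
    have hd : g ∣ N' - N := (Nat.modEq_iff_dvd' hcon.le).1 (by
      unfold Nat.ModEq
      rw [hN3, h1])
    have := Nat.le_of_dvd (by omega) hd
    omega
  · intro m N hN
    rintro ⟨N', hN', hlt⟩
    rw [mem_lvls] at hN hN' ⊢
    obtain ⟨h1, h2, h3⟩ := hN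
    obtain ⟨h4, h5, h6⟩ := hN'
    have hd : gI m ∣ N' - N := (Nat.modEq_iff_dvd' hlt.le).1 (by
      unfold Nat.ModEq
      rw [h1, h4])
    have := Nat.le_of_dvd (by omega) hd
    refine ⟨?_, by omega, by omega⟩
    rw [Nat.add_mod_right, h1]
  · intro e
    obtain ⟨i, hi, h1, -⟩ := gI_spec e.length
    have hlt : e.length < 2 ^ gI e.length := by
      rw [hi]
      exact (Nat.lt_size_self _).trans_le (Nat.pow_le_pow_right (by norm_num) h1)
    unfold item padTo
    constructor
    · rw [List.length_append, List.length_replicate, List.length_append, List.length_singleton]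
      omega
    · simp
  · intro e e' _ h
    unfold item padTo at h
    have h' := congrArg List.reverse h
    simp only [List.reverse_append, List.reverse_replicate, List.reverse_cons, List.reverse_nil,
      List.nil_append, List.singleton_append] at h'
    have := cancel _ _ _ _ h'
    exact List.reverse_injective this

end Pool.Agent.H654R5.PT.CLS
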